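import Pool.Agent.Work.MP_8e4d29_nt.Bd.B08
import Pool.Agent.Work.MP_8e4d29_nt.Bd.B07
import Pool.Agent.Work.MP_8e4d29_nt.Bd.B02
import Pool.Agent.Work.MP_8e4d29_nt.Bd.B01
import Pool.Agent.Work.MP_8e4d29_nt.Bd.B03
import Pool.Agent.Work.MP_8e4d29_nt.Bd.B05
import Pool.Agent.Work.MP_8e4d29_nt.Bd.B04
import Pool.Agent.Work.MP_8e4d29_nt.Bd.B06

/-!
MP_8e4d29_nt: final assembly.
-/

namespace Pool.Agent.Work.MP_8e4d29_nt

theorem all_KY : ClaimKY :=
  claimKY claimSizF (claimYsum claimVdC0 claimKL claimLogDiff) (claimNsum claimKL) claimFej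

theorem all_T1diff : ClaimT1diff :=
  claimT1diff claimSizF claimVaughan (claimT1I claimSizF all_KY (claimNsum claimKL))
    (claimT1II claimSizF all_KY claimMV claimTau)

theorem all_T1 : ClaimT1 := claimT1 claimSizF all_T1diff claimBT claimCheb claimFej

theorem all_T2 : ClaimT2 := claimT2 claimSizF (claimSrcs claimSizF) (claimAvgSrc claimSizF claimEQ)

theorem all_goodY : ClaimGoodY := claimGoodY claimSizF all_T1 all_T2 claimBT

theorem all_count : ClaimCount :=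
  claimCount claimSizF (all_major claimSizF) all_minor (claimLLT claimBin) claimChA claimBT

/-- for every bound there is a larger prime with `s_2 = s_3` -/
theorem exists_large (n : ℕ) : ∃ p : ℕ, p.Prime ∧ n ≤ p ∧ Dd p = 0 := by
  obtain ⟨c0, C, L1, hc0, hY⟩ := all_goodY
  obtain ⟨L2, hC⟩ := all_count c0 C hc0
  obtain ⟨L, hL, hNC⟩ := claimNC (max (max L1 L2) n)
  have hL1 : L1 ≤ L := (le_max_left _ _).trans ((le_max_left _ _).trans hL)
  have hL2 : L2 ≤ L := (le_max_right _ _).trans ((le_max_left _ _).trans hL)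
  have hLn : n ≤ L := (le_max_right _ _).trans hL
  obtain ⟨x, hdvd, hx1, hx2, hcar, hPhi, hpsi⟩ := hY L hL1 hNC
  obtain ⟨p, hp, hxp, hD⟩ := hC L x hL2 hdvd hx1 hx2 hcar hPhi hpsi
  refine ⟨p, hp, ?_, hD⟩
  have h3 : L < 3 ^ L := Nat.lt_pow_self (by norm_num)
  omega

theorem main : Set.Infinite {p : ℕ | p.Prime ∧ (Nat.digits 2 p).sum = (Nat.digits 3 p).sum} := by
  rw [Set.infinite_iff_exists_gt]
  intro n
  obtain ⟨p, hp, hnp, hD⟩ := exists_large (n + 1)
  refine ⟨p, ⟨hp, ?_⟩, by omega⟩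
  unfold Dd at hD
  omega

end Pool.Agent.Work.MP_8e4d29_nt
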