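import Pool.Agent.Work.MP_8e4d29_nt.All

/-!
MP_8e4d29_nt: the counting version. A good short interval contains many primes with equal
binary and ternary digit sums.
-/

set_option autoImplicit false

namespace Pool.Agent.Work.MP_8e4d29_nt

open Finset Filter
open Pool.Agent.Work.MP_122e00_nt (ee norm_ee ee_add ee_neg)

namespace Cnt2

/-- the power gain, with room for a power of the logarithm -/
theorem ev_gain (κ : ℝ) (hκ : 0 < κ) : ∀ᶠ X : ℝ in atTop, ∀ K : ℝ, 1 ≤ K →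
    K * Real.log 2 ≤ Real.log X →
    X ^ ((76 : ℝ) / 100) * Real.log (3 * X) ≤ X ^ ((77 : ℝ) / 100) * κ / Real.sqrt K := by
  have a1 := isLittleO_log_rpow_rpow_atTop (2 : ℝ) (show (0 : ℝ) < 1 / 100 by norm_num)
  have b1 := a1.bound (show 0 < κ / 4 by positivity)
  filter_upwards [b1, eventually_ge_atTop 3] with X h1 h2 K hK1 hK2
  have hX : 0 < X := by linarith
  have hl1 : 1 ≤ Real.log X := by
    rw [Real.le_log_iff_exp_le hX]
    have := Real.exp_one_lt_d9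
    linarith
  rw [Real.norm_of_nonneg (by positivity), Real.norm_of_nonneg (by positivity)] at h1
  have e2 : Real.log X ^ (2 : ℝ) = Real.log X ^ 2 := by norm_num
  rw [e2] at h1
  have hs : 0 < Real.sqrt K := Real.sqrt_pos.mpr (by linarith)
  have hK3 : K ≤ 2 * Real.log X := by
    have := Real.log_two_gt_d9
    nlinarith
  have hsK : Real.sqrt K ≤ 2 * Real.log X := by
    rw [Real.sqrt_le_left (by linarith)]
    nlinarith
  have h3 : Real.log (3 * X) ≤ 2 * Real.log X := by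
    rw [Real.log_mul (by norm_num) hX.ne']
    have : Real.log 3 ≤ Real.log X := Real.log_le_log (by norm_num) h2
    linarith
  have h5 : X ^ ((77 : ℝ) / 100) = X ^ ((76 : ℝ) / 100) * X ^ ((1 : ℝ) / 100) := by
    rw [← Real.rpow_add hX]
    norm_num
  rw [le_div_iff₀ hs]
  have hx2 : 0 < X ^ ((76 : ℝ) / 100) := by positivity
  have hl3 : 0 ≤ Real.log (3 * X) := Real.log_nonneg (by linarith)
  calc X ^ ((76 : ℝ) / 100) * Real.log (3 * X) * Real.sqrt K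
      ≤ X ^ ((76 : ℝ) / 100) * (2 * Real.log X) * (2 * Real.log X) := by gcongr
    _ = X ^ ((76 : ℝ) / 100) * (4 * Real.log X ^ 2) := by ring
    _ ≤ X ^ ((76 : ℝ) / 100) * (4 * (κ / 4 * X ^ ((1 : ℝ) / 100))) := by gcongr
    _ = X ^ ((77 : ℝ) / 100) * κ := by rw [h5]; ring

/-- the counting step for one interval; all parameters abstract -/
theorem one (x X H K : ℕ) (κ : ℝ) (g1 : x + H ≤ 3 * X) (hx0 : 1 ≤ x)
    (hlow : κ / 2 * H / Real.sqrt K ≤
      ∑ n ∈ (Ico x (x + H)).filter (fun n => Dd n = 0), ArithmeticFunction.vonMangoldt n)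
    (hz4 : (X : ℝ) ^ ((77 : ℝ) / 100) ≤ H) (hκ : 0 < κ)
    (f4 : 2 * Real.sqrt (3 * X) * Real.log (3 * X) <
      (X : ℝ) ^ ((77 : ℝ) / 100) * (κ / 4) / Real.sqrt K)
    (f5 : (X : ℝ) ^ ((76 : ℝ) / 100) * Real.log (3 * X) ≤
      (X : ℝ) ^ ((77 : ℝ) / 100) * (κ / 4) / Real.sqrt K) :
    (X : ℝ) ^ ((76 : ℝ) / 100) ≤
      (((Ico x (x + H)).filter (fun n => n.Prime ∧ Dd n = 0)).card : ℝ) := by
  have hnp := Cnt.nonprime_sum x H (3 * X) g1 hx0
  push_cast at hnp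
  have hκH : (X : ℝ) ^ ((77 : ℝ) / 100) * (κ / 4) / Real.sqrt K +
      (X : ℝ) ^ ((77 : ℝ) / 100) * (κ / 4) / Real.sqrt K ≤ κ / 2 * H / Real.sqrt K := by
    have e : (X : ℝ) ^ ((77 : ℝ) / 100) * (κ / 4) / Real.sqrt K +
      (X : ℝ) ^ ((77 : ℝ) / 100) * (κ / 4) / Real.sqrt K =
      κ / 2 * (X : ℝ) ^ ((77 : ℝ) / 100) / Real.sqrt K := by ring
    rw [e]
    gcongr
  have hXpos : 1 ≤ 3 * X := by omega
  have hl3 : 0 ≤ Real.log (3 * (X : ℝ)) := by
    apply Real.log_nonneg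
    exact_mod_cast hXpos
  -- split the sum
  have hsplit : ∑ n ∈ (Ico x (x + H)).filter (fun n => Dd n = 0),
      ArithmeticFunction.vonMangoldt n ≤
      ∑ n ∈ (Ico x (x + H)).filter (fun n => n.Prime ∧ Dd n = 0),
        ArithmeticFunction.vonMangoldt n +
      ∑ n ∈ (Ico x (x + H)).filter (fun n => ¬ n.Prime), ArithmeticFunction.vonMangoldt n := by
    have h1 := Finset.sum_filter_add_sum_filter_not ((Ico x (x + H)).filter (fun n => Dd n = 0))
      (fun n => n.Prime) (fun n => ArithmeticFunction.vonMangoldt n)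
    rw [← h1, Finset.filter_filter, Finset.filter_filter]
    apply add_le_add
    · apply le_of_eq
      apply Finset.sum_congr _ (fun _ _ => rfl)
      ext n
      simp only [Finset.mem_filter]
      tauto
    · apply Finset.sum_le_sum_of_subset_of_nonneg
      · intro n hn
        rw [Finset.mem_filter] at hn ⊢
        exact ⟨hn.1, hn.2.2⟩
      · intro n _ _
        exact ArithmeticFunction.vonMangoldt_nonneg
  have hcard : ∑ n ∈ (Ico x (x + H)).filter (fun n => n.Prime ∧ Dd n = 0),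
        ArithmeticFunction.vonMangoldt n ≤
      (((Ico x (x + H)).filter (fun n => n.Prime ∧ Dd n = 0)).card : ℝ) *
        Real.log (3 * X) := by
    rw [← nsmul_eq_mul]
    apply Finset.sum_le_card_nsmul
    intro n hn
    rw [Finset.mem_filter, Finset.mem_Ico] at hn
    rw [ArithmeticFunction.vonMangoldt_apply_prime hn.2.1]
    apply Real.log_le_log
    · exact_mod_cast hn.2.1.pos
    · have : n ≤ 3 * X := by omega
      exact_mod_cast this
  have hfin : (X : ℝ) ^ ((76 : ℝ) / 100) * Real.log (3 * X) ≤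
      (((Ico x (x + H)).filter (fun n => n.Prime ∧ Dd n = 0)).card : ℝ) *
        Real.log (3 * X) := by linarith
  rcases hl3.lt_or_eq with h | h
  · exact le_of_mul_le_mul_right hfin h
  · exfalso
    rw [← h] at f4
    have h3X : (3 : ℝ) * X = 1 ∨ (3 : ℝ) * X = 0 ∨ (3 : ℝ) * X = -1 := by
      rcases Real.log_eq_zero.mp h.symm with h | h | h
      · exact Or.inr (Or.inl h)
      · exact Or.inl h
      · exact Or.inr (Or.inr h)
    rcases h3X with h | h | h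
    · have h' : 3 * X = 1 := by exact_mod_cast h
      omega
    · have h' : 3 * X = 0 := by exact_mod_cast h
      omega
    · have : (0 : ℝ) ≤ 3 * X := by positivity
      linarith

end Cnt2

/-- a good short interval contains many primes with `s_2 = s_3` -/
def ClaimCount2 : Prop := ∀ c0 C : ℝ, 0 < c0 → ∃ L0 : ℕ, ∀ L x : ℕ, L0 ≤ L → 3 ^ pj0 L ∣ x →
  3 ^ L ≤ x → x < 3 ^ (L + 1) → x % 2 ^ pk0 L + 3 ^ pj0 L < 2 ^ pk0 L →
  Phi L x ^ 2 ≤ C * pK L →
  c0 * 3 ^ pj0 L ≤ ∑ n ∈ Ico x (x + 3 ^ pj0 L), ArithmeticFunction.vonMangoldt n →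
  x + 3 ^ pj0 L ≤ 3 ^ (L + 1) ∧
  ((3 ^ L : ℕ) : ℝ) ^ ((76 : ℝ) / 100) ≤
    (((Ico x (x + 3 ^ pj0 L)).filter (fun n => n.Prime ∧ Dd n = 0)).card : ℝ)

theorem claimCount2 (h0 : ClaimSizF) (h1 : ClaimMajor) (h2 : ClaimMinor) (h3 : ClaimLLT)
    (h4 : ClaimChA) (h5 : ClaimBT) : ClaimCount2 := by
  intro c0 C hc0
  obtain ⟨LS, hS⟩ := h0
  obtain ⟨cm, Cm, Nm, hcm, hmin⟩ := h2
  obtain ⟨CB, NB, hCB, hBT⟩ := h5
  -- choice of C1
  obtain ⟨C1, hC10, hC1c⟩ : ∃ C1 : ℝ, 10 ≤ C1 ∧ 2 * ((Cm : ℝ) + 4) / cm ≤ C1 :=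
    ⟨max 10 (2 * ((Cm : ℝ) + 4) / cm), le_max_left _ _, le_max_right _ _⟩
  obtain ⟨C2, LM, hmaj⟩ := h1 C1
  -- choice of A
  obtain ⟨C3, hC3⟩ : ∃ C3 : ℝ, C3 = 2 * |C2| + 2 * |C| * CB := ⟨_, rfl⟩
  have hC30 : 0 ≤ C3 := by rw [hC3]; positivity
  obtain ⟨A, hA0, hA2⟩ : ∃ A : ℝ, 0 < A ∧ C3 / A ^ 2 ≤ c0 / 2 := by
    refine ⟨Real.sqrt (2 * C3 / c0) + 1, by positivity, ?_⟩
    rw [div_le_iff₀ (by positivity)]
    have s1 : 2 * C3 / c0 ≤ (Real.sqrt (2 * C3 / c0) + 1) ^ 2 := by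
      have h := Real.sq_sqrt (show 0 ≤ 2 * C3 / c0 by positivity)
      have h' := Real.sqrt_nonneg (2 * C3 / c0)
      nlinarith
    rw [div_le_iff₀ hc0] at s1
    linarith
  obtain ⟨cL, KL, hcL, hLLT⟩ := h3 A
  have hκ0 : 0 < cL * c0 / 2 := by positivity
  -- large L
  have tK : Tendsto pK atTop atTop :=
    tendsto_atTop_mono Cnt.le_pK tendsto_id
  have tX : Tendsto (fun L : ℕ => ((3 ^ L : ℕ) : ℝ)) atTop atTop := by
    have : Tendsto (fun L : ℕ => (3 : ℝ) ^ L) atTop atTop :=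
      tendsto_pow_atTop_atTop_of_one_lt (by norm_num)
    refine this.congr (fun L => ?_)
    push_cast
    ring
  have ev1 := tK.eventually (Cnt.ev_minor cm hcm Cm)
  have ev2 := tK.eventually (Cnt.ev_theta C1 1 one_pos)
  have ev3 := tK.eventually (Cnt.ev_final C1 (cL * c0 / 2) CB hκ0 (by linarith) hCB.le)
  have ev4 := tX.eventually (Cnt.ev_pp (cL * c0 / 2 / 4) (by positivity))
  have ev4' := tX.eventually (Cnt2.ev_gain (cL * c0 / 2 / 4) (by positivity))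
  have ev5 := tK.eventually (eventually_ge_atTop KL)
  have tN : Tendsto (fun L : ℕ => 3 ^ L - 1) atTop atTop := by
    apply tendsto_atTop_mono (fun L : ℕ => ?_) tendsto_id
    have : L < 3 ^ L := Nat.lt_pow_self (by norm_num)
    simp only [id]
    omega
  have ev6 := tN.eventually (eventually_ge_atTop (Nm + NB))
  obtain ⟨L0, hL0⟩ := eventually_atTop.mp
    ((((ev1.and ev2).and (ev3.and ev4)).and (ev5.and ev6)).and ev4')
  refine ⟨max (max LS LM) L0, ?_⟩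
  intro L x hL hdvd hx1 hx2 hx3 hPhi hpsi
  have hLS : LS ≤ L := le_trans (le_trans (le_max_left _ _) (le_max_left _ _)) hL
  have hLM : LM ≤ L := le_trans (le_trans (le_max_right _ _) (le_max_left _ _)) hL
  obtain ⟨⟨⟨⟨f1, f2⟩, f3, f4⟩, f5, f6⟩, f4'⟩ := hL0 L (le_trans (le_max_right _ _) hL)
  have hSL := hS L hLS
  obtain ⟨g1, g2, g3, g4, g5, g6, g7⟩ := Cnt.N_facts hSL hdvd hx1 hx2
  refine ⟨g1, ?_⟩
  obtain ⟨n2, n3, E, b1, b2, b3, b4, hmj, hvar⟩ := hmaj L x hLM hdvd hx1 hx2 hx3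
  have hz1 := hSL.z1
  have hz3 := hSL.z3
  have hz4 := hSL.z4
  have hpH : pH L = 3 ^ pj0 L := rfl
  rw [hpH] at hz4
  have hHr : ((3 : ℝ) ^ pj0 L) = ((3 ^ pj0 L : ℕ) : ℝ) := by push_cast; ring
  rw [hHr] at hpsi hmj hvar
  have hH0n : 0 < 3 ^ pj0 L := by positivity
  have hLLT' := fun t => hLLT (pK L) n2 n3 f5 b1 b2 b3 b4 t
  have e3 : 3 ^ (L + 1) = 3 * 3 ^ L := by rw [pow_succ]; ring
  rw [e3] at g1 hx2
  have hX1 : 0 < 3 ^ L := by positivity
  have hmn := fun θ : ℝ => hmin (3 ^ L - 1) (x - 1) (3 ^ pj0 L) θ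
  have hbt := hBT (3 ^ L - 1) (x - 1) (3 ^ pj0 L) 1 0 0
  have hs2 : (pK L : ℝ) * Real.log 2 ≤ Real.log (((3 ^ L : ℕ) : ℝ)) := by
    rw [← Real.log_pow]
    apply Real.log_le_log (by positivity)
    exact_mod_cast hz3
  clear hpH hHr hmaj hmin hLLT hSL hdvd hx3 hL0 hS ev1 ev2 ev3 ev4 ev4' ev5 ev6 tN tX tK e3 hLS
    hLM hL hBT hz3
  generalize Phi L x = Φ at *
  generalize 3 ^ pj0 L = H at *
  generalize 3 ^ L = X at *
  generalize pK L = K at *
  obtain ⟨N, hN⟩ : ∃ N : ℕ, N = X - 1 := ⟨_, rfl⟩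
  rw [← hN] at hmn hbt g2 g3 g4 g5 g6 g7 f6
  have hx0 : 1 ≤ x := by omega
  rw [Cnt.Ioc_Ico x H hx0] at hmn hbt
  have hH0 : (0 : ℝ) < H := by exact_mod_cast hH0n
  have hN1 : (1 : ℝ) ≤ (N : ℝ) := by
    have : 1 ≤ N := by omega
    exact_mod_cast this
  have hK1 : (1 : ℝ) ≤ K := by
    have : 1 ≤ K := le_trans (by norm_num) hz1
    exact_mod_cast this
  have hup : ∑ n ∈ Ico x (x + H), ArithmeticFunction.vonMangoldt n ≤ CB * H := by
    have := hbt (by omega) (by omega) (by omega)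
      (le_trans (Real.rpow_le_rpow_of_exponent_le hN1 (by norm_num)) g4) (Or.inl (by norm_num))
      (by rw [Nat.cast_one]; exact Real.one_le_rpow hN1 (by norm_num)) (by norm_num)
    simpa [Nat.mod_one] using this
  have hlow := Cnt.fin_abs (Ico x (x + H)) K H N n2 n3 E c0 C C1 C2 C3 CB A cL cm Φ Cm hK1 hH0 hN1
    hcm hCB hA0 hcL hC3 hA2 hC10 hC1c g6 g7 f1 f2.1 f3 h4 b1 hup
    (fun θ hθ => hmn θ (by omega) (by omega) g3 g4 g5 hθ) hPhi hpsi hvar hmj hLLT'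
  exact Cnt2.one x X H K (cL * c0 / 2) g1 hx0 hlow hz4 hκ0 (f4 K hK1 hs2) (f4' K hK1 hs2)

theorem all_count2 : ClaimCount2 :=
  claimCount2 claimSizF (all_major claimSizF) all_minor (claimLLT claimBin) claimChA claimBT

/-- for all large `h`, one of the two intervals `[3 ^ L, 3 ^ (L + 1))` with `L = 22500000 h` or
`L = 22530000 h` contains `3 ^ (0.76 L)` primes with equal digit sums -/
theorem many_primes : ∃ h0 : ℕ, ∀ h : ℕ, h0 ≤ h → ∃ L : ℕ, 22500000 * h ≤ L ∧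
    L ≤ 22530000 * h ∧ ((3 ^ L : ℕ) : ℝ) ^ ((76 : ℝ) / 100) ≤
      (((Ico (3 ^ L) (3 ^ (L + 1))).filter (fun n => n.Prime ∧ Dd n = 0)).card : ℝ) := by
  obtain ⟨c0, C, L1, hc0, hY⟩ := all_goodY
  obtain ⟨L2, hC⟩ := all_count2 c0 C hc0
  refine ⟨max L1 L2 + 1, fun h hh => ?_⟩
  have hL1 : L1 ≤ 22500000 * h := by
    have := le_max_left L1 L2
    omega
  have hL2 : L2 ≤ 22500000 * h := by
    have := le_max_right L1 L2
    omega
  have key : ∀ L : ℕ, 22500000 * h ≤ L → NC L → ((3 ^ L : ℕ) : ℝ) ^ ((76 : ℝ) / 100) ≤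
      (((Ico (3 ^ L) (3 ^ (L + 1))).filter (fun n => n.Prime ∧ Dd n = 0)).card : ℝ) := by
    intro L hL hNC
    obtain ⟨x, hdvd, hx1, hx2, hcar, hPhi, hpsi⟩ := hY L (hL1.trans hL) hNC
    obtain ⟨hxe, hcnt⟩ := hC L x (hL2.trans hL) hdvd hx1 hx2 hcar hPhi hpsi
    refine hcnt.trans ?_
    have hsub : (Ico x (x + 3 ^ pj0 L)).filter (fun n => n.Prime ∧ Dd n = 0) ⊆
        (Ico (3 ^ L) (3 ^ (L + 1))).filter (fun n => n.Prime ∧ Dd n = 0) := by
      apply Finset.filter_subset_filter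
      intro n hn
      rw [Finset.mem_Ico] at hn ⊢
      omega
    exact_mod_cast Finset.card_le_card hsub
  rcases NCp.main h (by omega) with h' | h'
  · exact ⟨22500000 * h, le_rfl, by omega, key _ le_rfl h'⟩
  · exact ⟨22530000 * h, by omega, le_rfl, key _ (by omega) h'⟩

/-- for all large `X` there are at least `X ^ (3 / 4)` primes up to `X` with `s_2 = s_3` -/
theorem count_lower : ∃ X0 : ℕ, ∀ X : ℕ, X0 ≤ X → (X : ℝ) ^ ((3 : ℝ) / 4) ≤
    (((Icc 1 X).filter (fun p => p.Prime ∧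
      (Nat.digits 2 p).sum = (Nat.digits 3 p).sum)).card : ℝ) := by
  obtain ⟨h0, hmp⟩ := many_primes
  refine ⟨3 ^ (22530001 * (h0 + 1) + 22530001 * 1000), fun X hX => ?_⟩
  have hX0 : X ≠ 0 := by
    rintro rfl
    have : 0 < 3 ^ (22530001 * (h0 + 1) + 22530001 * 1000) := by positivity
    omega
  obtain ⟨M, hM⟩ : ∃ M, M = Nat.log 3 X := ⟨_, rfl⟩
  have hM1 : 3 ^ M ≤ X := hM ▸ Nat.pow_log_le_self 3 hX0
  have hM2 : X < 3 ^ (M + 1) := hM ▸ Nat.lt_pow_succ_log_self (by norm_num) X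
  have hM3 : 22530001 * (h0 + 1) + 22530001 * 1000 ≤ M := by
    have h1 : 3 ^ (22530001 * (h0 + 1) + 22530001 * 1000) < 3 ^ (M + 1) := lt_of_le_of_lt hX hM2
    have := (Nat.pow_lt_pow_iff_right (by norm_num : 1 < 3)).mp h1
    omega
  obtain ⟨h, hh⟩ : ∃ h, h = M / 22530001 := ⟨_, rfl⟩
  have hh1 : 22530001 * h ≤ M := by rw [hh]; exact Nat.mul_div_le M 22530001
  have hh2 : M < 22530001 * (h + 1) := by rw [hh]; exact Nat.lt_mul_div_succ M (by norm_num)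
  have hh3 : h0 + 1000 ≤ h := by omega
  obtain ⟨L, hL1, hL2, hcnt⟩ := hmp h (by omega)
  have hLM : L + 1 ≤ M := by omega
  have hsub : (Ico (3 ^ L) (3 ^ (L + 1))).filter (fun n => n.Prime ∧ Dd n = 0) ⊆
      (Icc 1 X).filter (fun p => p.Prime ∧ (Nat.digits 2 p).sum = (Nat.digits 3 p).sum) := by
    intro n hn
    rw [Finset.mem_filter, Finset.mem_Ico] at hn
    rw [Finset.mem_filter, Finset.mem_Icc]
    have h1 : 3 ^ (L + 1) ≤ 3 ^ M := Nat.pow_le_pow_right (by norm_num) hLM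
    have h2 := hn.2.1.one_lt
    refine ⟨⟨by omega, by omega⟩, hn.2.1, ?_⟩
    have h3 := hn.2.2
    unfold Dd at h3
    omega
  have hc : (((Ico (3 ^ L) (3 ^ (L + 1))).filter (fun n => n.Prime ∧ Dd n = 0)).card : ℝ) ≤
      (((Icc 1 X).filter (fun p => p.Prime ∧
      (Nat.digits 2 p).sum = (Nat.digits 3 p).sum)).card : ℝ) := by
    exact_mod_cast Finset.card_le_card hsub
  refine le_trans ?_ (hcnt.trans hc)
  have hL3 : 75 * (M + 1) ≤ 76 * L := by omega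
  have hX3 : (X : ℝ) ≤ (3 : ℝ) ^ ((M : ℝ) + 1) := by
    have h1 : (X : ℝ) ≤ ((3 ^ (M + 1) : ℕ) : ℝ) := by exact_mod_cast hM2.le
    refine h1.trans (le_of_eq ?_)
    push_cast
    rw [← Real.rpow_natCast]
    push_cast
    rfl
  have e1 : (((3 ^ L : ℕ) : ℝ)) ^ ((76 : ℝ) / 100) = (3 : ℝ) ^ ((L : ℝ) * (76 / 100)) := by
    push_cast
    rw [← Real.rpow_natCast, ← Real.rpow_mul (by norm_num)]
  calc (X : ℝ) ^ ((3 : ℝ) / 4) ≤ ((3 : ℝ) ^ ((M : ℝ) + 1)) ^ ((3 : ℝ) / 4) := by gcongr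
    _ = (3 : ℝ) ^ (((M : ℝ) + 1) * (3 / 4)) := by rw [← Real.rpow_mul (by norm_num)]
    _ ≤ (3 : ℝ) ^ ((L : ℝ) * (76 / 100)) := by
        apply Real.rpow_le_rpow_of_exponent_le (by norm_num)
        have : (75 : ℝ) * (M + 1) ≤ 76 * L := by exact_mod_cast hL3
        linarith
    _ = _ := e1.symm

end Pool.Agent.Work.MP_8e4d29_nt
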